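import Mathlib
import Pool.Agent.H66.CI5

open Complex Filter Topology Set Metric Pool.Agent.H66.CI
open scoped Manifold ContDiff

namespace Pool.Agent.Results.MP_c9945a_an.Irreducible

/-- A holomorphic map `θ : X → 𝔻` is quasi-proper if `sup |f| = sup |θ f|` (in `[0,∞]`) for every
holomorphic function `f` on `X`. -/
def QuasiProper {X : Type*} [TopologicalSpace X] [ChartedSpace ℂ X] (θ : X → ℂ) : Prop :=
  Hol θ ∧ (∀ x, ‖θ x‖ < 1) ∧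
    ∀ f : X → ℂ, Hol f → (⨆ x, ‖f x‖ₑ) = ⨆ x, ‖θ x * f x‖ₑ

lemma blaschke_basic {B : ℂ → ℂ} (hBl : IsBlaschke B) :
    DifferentiableOn ℂ B (ball 0 1) ∧ ∀ z : ℂ, ‖z‖ < 1 → ‖B z‖ ≤ 1 := by
  obtain ⟨ι, a, c, ha, hs, hc, hB⟩ := hBl
  have hBT : ∀ z : ℂ, ‖z‖ < 1 → B z = c * T a ∅ z := fun z hz => by rw [hB z hz, T_empty]
  refine ⟨?_, ?_⟩
  · refine ((T_diff a ha hs ∅).const_mul c).congr ?_
    intro z hz
    exact hBT z (mem_ball_one.1 hz)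
  · intro z hz
    rw [hBT z hz, norm_mul, hc, one_mul]
    exact T_norm_le a ha hs ∅ hz

lemma split {X : Type*} [TopologicalSpace X] [ChartedSpace ℂ X] [IsManifold 𝓘(ℂ, ℂ) ω X]
    {φ : X → ℂ} {σ : X → X} (hφ : TwoSheeted φ σ) {B : ℂ → ℂ}
    (hBd : DifferentiableOn ℂ B (ball 0 1))
    (hBz : ∀ z : ℂ, ‖z‖ < 1 → (B z = 0 ↔ ∃ x, Crit φ x ∧ φ x = z))
    (hBs : ∀ z : ℂ, ‖z‖ < 1 → B z = 0 → deriv B z ≠ 0)
    {ϑ : X → ℂ} (hϑ : Hol ϑ) (hϑ2 : ∀ x, ϑ x ^ 2 = B (φ x)) (hϑσ : ∀ x, ϑ (σ x) = -ϑ x)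
    {f : X → ℂ} (hf : Hol f) :
    ∃ g h : ℂ → ℂ, DifferentiableOn ℂ g (ball 0 1) ∧ DifferentiableOn ℂ h (ball 0 1) ∧
      (∀ x, g (φ x) + h (φ x) * ϑ x = f x) ∧ (∀ x, g (φ x) - h (φ x) * ϑ x = f (σ x)) := by
  obtain ⟨g, hgd, hg⟩ := descend hφ hBd hBz hBs
    (hol_mul (hol_const (1 / 2)) (hol_add hf (hol_comp_σ hφ hf)))
    (by intro x; simp only [hφ.invol]; ring)
  obtain ⟨h, hhd, hh⟩ := descend_anti hφ hBd hBz hBs hϑ hϑ2 hϑσ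
    (hol_mul (hol_const (1 / 2)) (hol_sub hf (hol_comp_σ hφ hf)))
    (by intro x; simp only [hφ.invol]; ring)
  refine ⟨g, h, hgd, hhd, ?_, ?_⟩
  · intro x
    rw [← hg x, ← hh x]; ring
  · intro x
    rw [← hg x, ← hh x]; ring

/-- **Question 1 of MP_c9945a_an, answered affirmatively.**  Let `φ : X → 𝔻` be a two-sheeted
branched covering of the disc by a Riemann surface `X`, with sheet interchange `σ` and at least
one (for instance infinitely many) critical points; let `B` be a Blaschke product whose zeros in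
the disc are exactly the critical values of `φ` and are all simple, and let `ϑ` be a holomorphic
function on `X` with `ϑ² = B ∘ φ`.  Then, for every `|ξ| < 1`, the function
`(ξ - ϑ) / (1 - conj ξ ϑ)` is not a product of two quasi-proper maps. -/
theorem result {X : Type*} [TopologicalSpace X] [ChartedSpace ℂ X] [IsManifold 𝓘(ℂ, ℂ) ω X]
    {φ : X → ℂ} {σ : X → X} (hφ : TwoSheeted φ σ) (hcrit : ∃ x, Crit φ x)
    {B : ℂ → ℂ} (hB : IsBlaschke B)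
    (hBz : ∀ z : ℂ, ‖z‖ < 1 → (B z = 0 ↔ ∃ x, Crit φ x ∧ φ x = z))
    (hBs : ∀ z : ℂ, ‖z‖ < 1 → B z = 0 → deriv B z ≠ 0)
    {ϑ : X → ℂ} (hϑ : Hol ϑ) (hϑ2 : ∀ x, ϑ x ^ 2 = B (φ x))
    {ξ : ℂ} (hξ : ‖ξ‖ < 1) :
    ¬ ∃ θ₁ θ₂ : X → ℂ, QuasiProper θ₁ ∧ QuasiProper θ₂ ∧
      ∀ x, (ξ - ϑ x) / (1 - (starRingEnd ℂ) ξ * ϑ x) = θ₁ x * θ₂ x := by
  rintro ⟨θ₁, θ₂, ⟨k1, k2, -⟩, ⟨l1, l2, -⟩, h12⟩
  obtain ⟨hBd, hB1⟩ := blaschke_basic hB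
  have hϑσ := theta_anti hφ hBd hBz hBs hcrit hϑ hϑ2
  obtain ⟨g1, h1, dg1, dh1, e1, e1'⟩ := split hφ hBd hBz hBs hϑ hϑ2 hϑσ k1
  obtain ⟨g2, h2, dg2, dh2, e2, e2'⟩ := split hφ hBd hBz hBs hϑ hϑ2 hϑσ l1
  refine core hB hξ dg1 dh1 dg2 dh2 ?_
  intro z hz
  obtain ⟨x, rfl⟩ := hφ.surj z hz
  refine ⟨ϑ x, hϑ2 x, ?_, ?_, ?_, ?_, ?_, ?_⟩
  · rw [e1 x]; exact k2 x
  · rw [e1' x]; exact k2 _
  · rw [e2 x]; exact l2 x
  · rw [e2' x]; exact l2 _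
  all_goals
    have hs : ‖ϑ x‖ ≤ 1 := by
      have h3 := hB1 (φ x) hz
      rw [← hϑ2 x, norm_pow] at h3
      nlinarith [norm_nonneg (ϑ x)]
    have hprod : ‖(starRingEnd ℂ) ξ * ϑ x‖ < 1 := by
      rw [norm_mul, RCLike.norm_conj]
      nlinarith [norm_nonneg (ϑ x), norm_nonneg ξ]
  · rw [e1 x, e2 x, ← h12 x]
    have hne : 1 - (starRingEnd ℂ) ξ * ϑ x ≠ 0 := by
      intro h
      rw [← sub_eq_zero.1 h, norm_one] at hprod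
      exact lt_irrefl _ hprod
    exact div_mul_cancel₀ _ hne
  · rw [e1' x, e2' x, ← h12 (σ x), hϑσ x]
    have hne : 1 + (starRingEnd ℂ) ξ * ϑ x ≠ 0 := by
      intro h
      have h4 : (starRingEnd ℂ) ξ * ϑ x = -1 := by
        rw [add_comm] at h; exact eq_neg_of_add_eq_zero_left h
      rw [h4, norm_neg, norm_one] at hprod
      exact lt_irrefl _ hprod
    rw [mul_neg, sub_neg_eq_add, sub_neg_eq_add]
    exact div_mul_cancel₀ _ hne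

end Pool.Agent.Results.MP_c9945a_an.Irreducible
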